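import Pool.Agent.W200.MR.Stm

/-!
# Mean values of Dirichlet polynomials
-/

set_option autoImplicit false

open Finset Filter Topology MeasureTheory

namespace Pool.Agent.W67.MR

open Pool.Agent.W200.MR

noncomputable def E (θ t : ℝ) : ℂ := Complex.exp (((t * θ : ℝ) : ℂ) * Complex.I)

theorem E_cont (θ : ℝ) : Continuous (E θ) := by
  unfold E
  fun_prop

theorem E_norm (θ t : ℝ) : ‖E θ t‖ = 1 := Complex.norm_exp_ofReal_mul_I _

theorem E_int {θ : ℝ} (h : θ ≠ 0) (a b : ℝ) :
    ∫ t in a..b, E θ t = (E θ b - E θ a) / ((θ : ℂ) * Complex.I) := by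
  have hθI : (θ : ℂ) * Complex.I ≠ 0 := mul_ne_zero (by exact_mod_cast h) Complex.I_ne_zero
  have e : ∀ t : ℝ, E θ t = Complex.exp ((θ : ℂ) * Complex.I * t) := by
    intro t
    unfold E
    congr 1
    push_cast
    ring
  simp only [e]
  exact integral_exp_mul_complex hθI

theorem E_lim (θ : ℝ) : Tendsto (fun S : ℝ => (1 / (S : ℂ)) * ∫ t in S..(2 * S), E θ t) atTop
    (𝓝 (if θ = 0 then 1 else 0)) := by
  split_ifs with h
  · subst h
    have h1 : (fun S : ℝ => (1 / (S : ℂ)) * ∫ t in S..(2 * S), E 0 t) =ᶠ[atTop] fun _ => 1 := by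
      filter_upwards [eventually_gt_atTop (0 : ℝ)] with S hS
      have e : ∀ t, E 0 t = 1 := by
        intro t
        simp [E]
      simp only [e]
      rw [intervalIntegral.integral_const]
      have hS' : (S : ℂ) ≠ 0 := by exact_mod_cast hS.ne'
      have e2 : 2 * S - S = S := by ring
      rw [e2, Complex.real_smul, mul_one, one_div, inv_mul_cancel₀ hS']
    exact (tendsto_congr' h1).mpr tendsto_const_nhds
  · have hb : ∀ᶠ S : ℝ in atTop, ‖(1 / (S : ℂ)) * ∫ t in S..(2 * S), E θ t‖ ≤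
        (2 / |θ|) * S⁻¹ := by
      filter_upwards [eventually_gt_atTop (0 : ℝ)] with S hS
      rw [E_int h, norm_mul, norm_div, norm_one, norm_div, norm_mul, Complex.norm_I, mul_one,
        Complex.norm_real, Complex.norm_real, Real.norm_eq_abs, Real.norm_eq_abs, abs_of_pos hS]
      have h2 : ‖E θ (2 * S) - E θ S‖ ≤ 2 := by
        calc ‖E θ (2 * S) - E θ S‖ ≤ ‖E θ (2 * S)‖ + ‖E θ S‖ := norm_sub_le _ _
          _ = 2 := by rw [E_norm, E_norm]; norm_num
      rw [one_div, mul_comm]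
      have hθ : 0 < |θ| := abs_pos.mpr h
      gcongr
    refine squeeze_zero_norm' hb ?_
    have h3 := (tendsto_inv_atTop_zero (𝕜 := ℝ)).const_mul (2 / |θ|)
    rwa [mul_zero] at h3

theorem expand (K : Finset ℕ) (c : ℕ → ℂ) (t : ℝ) :
    ((‖∑ k ∈ K, c k * pw t k‖ ^ 2 : ℝ) : ℂ) =
      ∑ k ∈ K, ∑ l ∈ K, c k * (starRingEnd ℂ) (c l) * E (Real.log k - Real.log l) t := by
  have h1 : ((‖∑ k ∈ K, c k * pw t k‖ ^ 2 : ℝ) : ℂ) =
      (∑ k ∈ K, c k * pw t k) * (starRingEnd ℂ) (∑ k ∈ K, c k * pw t k) := by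
    rw [Complex.mul_conj']
    push_cast
    rfl
  rw [h1, map_sum, Finset.sum_mul_sum]
  refine Finset.sum_congr rfl fun k _ => Finset.sum_congr rfl fun l _ => ?_
  rw [map_mul]
  have h2 : (starRingEnd ℂ) (pw t l) = Complex.exp (((-(t * Real.log l) : ℝ) : ℂ) * Complex.I) := by
    unfold pw
    rw [← Complex.exp_conj, map_mul, Complex.conj_I, Complex.conj_ofReal]
    congr 1
    push_cast
    ring
  have h3 : pw t k * (starRingEnd ℂ) (pw t l) = E (Real.log k - Real.log l) t := by
    rw [h2]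
    unfold pw E
    rw [← Complex.exp_add]
    congr 1
    push_cast
    ring
  rw [← h3]
  ring

theorem t_MV1 : S_MV1 := by
  intro K c hK
  have hC : Tendsto (fun S : ℝ => ∑ k ∈ K, ∑ l ∈ K, c k * (starRingEnd ℂ) (c l) *
      ((1 / (S : ℂ)) * ∫ t in S..(2 * S), E (Real.log k - Real.log l) t)) atTop
      (𝓝 (∑ k ∈ K, ∑ l ∈ K, c k * (starRingEnd ℂ) (c l) *
        (if Real.log k - Real.log l = 0 then 1 else 0))) :=
    tendsto_finset_sum _ fun k _ => tendsto_finset_sum _ fun l _ => (E_lim _).const_mul _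
  have hlim : (∑ k ∈ K, ∑ l ∈ K, c k * (starRingEnd ℂ) (c l) *
        (if Real.log k - Real.log l = 0 then 1 else 0)) =
      ((∑ k ∈ K, ‖c k‖ ^ 2 : ℝ) : ℂ) := by
    rw [Complex.ofReal_sum]
    refine Finset.sum_congr rfl fun k hk => ?_
    rw [Finset.sum_eq_single k]
    · rw [sub_self, if_pos rfl, mul_one, Complex.mul_conj']
      push_cast
      rfl
    · intro l hl hlk
      rw [if_neg, mul_zero]
      intro h0
      apply hlk
      have hkpos : (0 : ℝ) < k := by exact_mod_cast hK k hk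
      have hlpos : (0 : ℝ) < l := by exact_mod_cast hK l hl
      have h1 : Real.log l = Real.log k := by linarith
      have h2 := Real.log_injOn_pos (Set.mem_Ioi.mpr hlpos) (Set.mem_Ioi.mpr hkpos) h1
      exact_mod_cast h2
    · intro h
      exact absurd hk h
  have hfun : ∀ S : ℝ, (((1 / S) * ∫ t in S..(2 * S), ‖∑ k ∈ K, c k * pw t k‖ ^ 2 : ℝ) : ℂ) =
      ∑ k ∈ K, ∑ l ∈ K, c k * (starRingEnd ℂ) (c l) *
      ((1 / (S : ℂ)) * ∫ t in S..(2 * S), E (Real.log k - Real.log l) t) := by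
    intro S
    rw [Complex.ofReal_mul, ← intervalIntegral.integral_ofReal]
    simp only [expand]
    have hci : ∀ (k l : ℕ), Continuous fun t : ℝ =>
        c k * (starRingEnd ℂ) (c l) * E (Real.log k - Real.log l) t := fun k l =>
      continuous_const.mul (E_cont _)
    rw [intervalIntegral.integral_finset_sum (fun k _ =>
      (continuous_finset_sum _ fun l _ => hci k l).intervalIntegrable _ _), Finset.mul_sum]
    refine Finset.sum_congr rfl fun k _ => ?_
    rw [intervalIntegral.integral_finset_sum (fun l _ => (hci k l).intervalIntegrable _ _),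
      Finset.mul_sum]
    refine Finset.sum_congr rfl fun l _ => ?_
    rw [intervalIntegral.integral_const_mul]
    push_cast
    ring
  rw [hlim] at hC
  have hC2 := (Complex.continuous_re.tendsto _).comp hC
  rw [Complex.ofReal_re] at hC2
  refine hC2.congr fun S => ?_
  rw [Function.comp_apply, ← hfun S, Complex.ofReal_re]

end Pool.Agent.W67.MR
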